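import Pool.Agent.Lib.MP_1d263a_an.PA.Stm

/-!
# Carpet project, part A: assembly
-/

set_option autoImplicit false

namespace Pool.Agent.Lib.MP_1d263a_an.PA

open MeasureTheory CarpetPI
open scoped ENNReal

theorem fe_nonneg' (p : ℝ) (u : Pt → ℝ) (f : Pt) : 0 ≤ fe p u f :=
  Finset.sum_nonneg fun _ _ => Real.rpow_nonneg (abs_nonneg _) _

theorem En_nonneg' (p : ℝ) (K : Set Pt) (u : Pt → ℝ) (G : Finset Pt) : 0 ≤ En p K u G :=
  Finset.sum_nonneg fun _ _ => fe_nonneg' _ _ _

theorem met_of (h1 : S_met1) (h2 : S_met2) (h3 : S_met3) {X : Type} [MetricSpace X]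
    {f : carpet ≃ X} {η : ℝ → ℝ} (hη : QS f η) : Met f (2 * η 6) := by
  obtain ⟨a1, a2, a3, a4⟩ := h1 X f η hη
  obtain ⟨b1, b2, b3, b4, b5, b6⟩ := h2 X f η hη
  obtain ⟨c1, c2⟩ := h3 X f η hη
  have h16 : η 1 ≤ η 6 := (hη.2.1.monotoneOn (by simp) (by simp) (by norm_num))
  exact ⟨by linarith, a2, a3, a4, b1, b2, b3, b4, b5, b6, c1, c2⟩

theorem p_final (hg : S_geo) (hm1 : S_met1) (hm2 : S_met2) (hm3 : S_met3)
    (hmr : S_mr) (hadd : S_add) (hk : S_kept) (hch : S_chain) (hlw : S_lw) (hcap : S_cap)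
    (hd : S_dst) (hco : S_cor) : S_final := by
  intro X _ _ _ f p η hη C hC hA C' L' hC' hL' hPI
  have hη0 := hη.1
  have hηm := hη.2.1.monotoneOn
  have hq := hη.2.2.2
  have hW : WQS f (η 1) := fun x a b h => hq x a b 1 zero_le_one h
  have hp87 : 87 / 50 < p := by
    by_contra hc
    exact no_regular hW (not_lt.1 hc) hC hA
  have hp1 : 1 < p := by linarith
  refine ⟨hp1, ?_⟩
  have hp0 : 0 < p := by linarith
  have hM := met_of hm1 hm2 hm3 hη
  set H := 2 * η 6 with hH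
  set μ : Measure X := Measure.hausdorffMeasure p with hμ
  have hη1 : 1 ≤ η 1 := (hm1 X f η hη).1
  obtain ⟨hfin, K, hK1, hK⟩ := hmr X f H μ p C hp0 hC hM hA
  obtain ⟨K', κ, hK'0, hc⟩ := hch X f H μ p C C' L' hp1.le hC hM hA hC' hL' hPI
  obtain ⟨A₁, κ', hA₁, hlw'⟩ := hlw p K' κ hp1.le hK'0
  obtain ⟨A₂, hA₂, hcap'⟩ := hcap X f H μ p C C' L' hp1.le hC hM hA hC' hL' hPI
  obtain ⟨k1, k2, k3, k4, k5, k6⟩ := hk
  obtain ⟨d1, d2, d3, d4, d5⟩ := hd
  set B : ℝ := (2 * η 1) ^ p with hB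
  have hB1 : 1 ≤ B := Real.one_le_rpow (by linarith) hp0.le
  set A : ℝ := K * B * A₁ * A₂ with hAdef
  have hA1 : 1 ≤ A := by
    have e1 : 1 ≤ K * B := by nlinarith
    have e2 : 1 ≤ K * B * A₁ := by nlinarith
    nlinarith
  have hKA : K ≤ A := by
    have e1 : K ≤ K * B := by nlinarith
    have e2 : K * B ≤ K * B * A₁ := le_mul_of_one_le_right (by nlinarith) hA₁
    have e3 : K * B * A₁ ≤ A := le_mul_of_one_le_right (by nlinarith) hA₂
    linarith
  have hKBA : K * B ≤ A := by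
    have e2 : K * B ≤ K * B * A₁ := le_mul_of_one_le_right (by nlinarith) hA₁
    have e3 : K * B * A₁ ≤ A := le_mul_of_one_le_right (by nlinarith) hA₂
    linarith
  have hA₁A : A₁ ≤ A := by
    have e1 : 1 ≤ K * B := by nlinarith
    have e2 : A₁ ≤ K * B * A₁ := le_mul_of_one_le_left (by linarith) e1
    have e3 : K * B * A₁ ≤ A := le_mul_of_one_le_right (by nlinarith) hA₂
    linarith
  have hA₂A : A₂ ≤ A := by
    have e1 : 1 ≤ K * B := by nlinarith
    have e2 : 1 ≤ K * B * A₁ := by nlinarith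
    exact le_mul_of_one_le_left (by linarith) e2
  set mu : ℕ → Pt → ℝ := fun n q => (μ (f '' Cl n (q.1.toNat, q.2.toNat))).toReal with hmu
  have hmu' : ∀ n, ∀ a : ℕ × ℕ, mu n (ip a) = (μ (f '' Cl n a)).toReal := by
    intro n a
    simp [hmu, ip]
  -- bounds for mu
  have hlow : ∀ n, ∀ a ∈ I n, rad f n a ^ p ≤ K * mu n (ip a) := by
    intro n a ha'
    have h1 := (hK n a ha').1
    have h2 : μ (f '' Op n a) ≤ μ (f '' Cl n a) :=
      measure_mono (Set.image_mono (hg.2.2.2.2.2.2.2.1 n a))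
    have h3 := ENNReal.toReal_mono (measure_ne_top μ _) (h1.trans h2)
    rw [ENNReal.toReal_ofReal (by
      have := (hM.pos n a ha').le
      positivity)] at h3
    rw [hmu']
    have hKp : 0 < K := by linarith
    rwa [inv_mul_le_iff₀ hKp] at h3
  have hupp : ∀ n, ∀ a ∈ I n, mu n (ip a) ≤ K * rad f n a ^ p := by
    intro n a ha'
    rw [hmu']
    have h1 := (hK n a ha').2
    have := (hM.pos n a ha').le
    have h3 := ENNReal.toReal_mono ENNReal.ofReal_ne_top h1
    rwa [ENNReal.toReal_ofReal (by positivity)] at h3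
  refine ⟨{
    d := fun N x y => dist (f (PP N x)) (f (PP N y))
    mu := mu
    η := η
    A := A
    κ := κ'
    hA := hA1
    η_nonneg := ?_
    η_mono := ?_
    η_zero := ?_
    d_nonneg := fun N x y => dist_nonneg
    d_self := fun N x => dist_self _
    d_symm := fun N x y => dist_comm _ _
    d_pos := ?_
    d_tri := fun N x _ y _ z _ => dist_triangle _ _ _
    d_scale := ?_
    qs := ?_
    mu_pos := ?_
    mu_add := ?_
    ahl := ?_
    lw := ?_
    cap := ?_ }⟩
  · intro t ht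
    rw [← hη0]
    exact hηm (by simp) ht ht
  · intro s t hs hst
    exact hηm hs (hs.trans hst) hst
  · intro ε hε
    have hcont := hη.2.2.1 0 (by simp)
    rw [ContinuousWithinAt, hη0] at hcont
    have := hcont.eventually (gt_mem_nhds hε)
    rw [eventually_nhdsWithin_iff, Metric.eventually_nhds_iff] at this
    obtain ⟨δ, hδ, h⟩ := this
    refine ⟨δ / 2, by linarith, ?_⟩
    refine (h (y := δ / 2) ?_ ?_).le
    · rw [Real.dist_eq, sub_zero, abs_of_pos (by linarith)]
      linarith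
    · simp only [Set.mem_Ici]; linarith
  · intro N x hx y hy hxy
    rw [dist_pos]
    intro h
    have h1 := f.injective h
    have h2 := d3 N x hx y hy
    rw [h1, dist_self] at h2
    have h3 : (dis x y : ℝ) = 0 := by
      have h3N : (0 : ℝ) < 3 ^ N := by positivity
      field_simp at h2
      linarith
    have h4 : dis x y = 0 := by exact_mod_cast h3
    apply hxy
    unfold dis at h4
    have e1 : |x.1 - y.1| ≤ 0 := h4 ▸ le_max_left _ _
    have e2 : |x.2 - y.2| ≤ 0 := h4 ▸ le_max_right _ _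
    have e1' := abs_nonpos_iff.1 e1
    have e2' := abs_nonpos_iff.1 e2
    ext
    · linarith
    · linarith
  · intro N x hx y hy
    simp only [d4 N x hx, d4 N y hy]
  · intro N x hx y hy z hz t ht h
    refine hq _ _ _ t ht ?_
    rw [d3 N x hx y hy, d3 N x hx z hz]
    have h3N : (0 : ℝ) < 3 ^ N := by positivity
    rw [← mul_div_assoc]
    gcongr
  · intro n q hq'
    obtain ⟨a, ha', rfl⟩ := (k1 n q).1 hq'
    have h1 := hlow n a ha'
    have h2 := Real.rpow_pos_of_pos (hM.pos n a ha') p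
    by_contra hc
    nlinarith [not_lt.1 hc]
  · intro n q hq'
    obtain ⟨a, ha', rfl⟩ := (k1 n q).1 hq'
    rw [hmu', hadd X f H μ p C hp0 hC hM hA n a ha' 1,
      ENNReal.toReal_sum (fun b _ => measure_ne_top μ _)]
    refine Finset.sum_bij (fun b _ => ip b) (fun b hb => (k3 _).2 ⟨b, hb, rfl⟩)
      (fun b _ b' _ h => k5 _ _ h) (fun c hc' => ?_) (fun b hb => ?_)
    · obtain ⟨b, hb, rfl⟩ := (k3 _).1 hc'
      exact ⟨b, hb, rfl⟩
    · rw [k4, hmu']
  · intro n q hq'
    obtain ⟨a, ha', rfl⟩ := (k1 n q).1 hq'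
    obtain ⟨c1, c2⟩ := hco X f η hη n a ha'
    have hr := (hM.pos n a ha').le
    have hu := hupp n a ha'
    have hl := hlow n a ha'
    set dd : ℝ := dist (f (PP n (ip a))) (f (PP n ((ip a).1 + 1, (ip a).2))) with hdd
    have hd0 : 0 ≤ dd := dist_nonneg
    constructor
    · have e1 : rad f n a ^ p ≤ (2 * η 1 * dd) ^ p := Real.rpow_le_rpow hr c2 hp0.le
      rw [Real.mul_rpow (by linarith) hd0] at e1
      have e2 : 0 ≤ dd ^ p := Real.rpow_nonneg hd0 _
      calc mu n (ip a) ≤ K * rad f n a ^ p := hu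
        _ ≤ K * (B * dd ^ p) := by gcongr
        _ = K * B * dd ^ p := by ring
        _ ≤ A * dd ^ p := by gcongr
    · have e1 : dd ^ p ≤ rad f n a ^ p := Real.rpow_le_rpow hd0 c1 hp0.le
      have e2 : 0 ≤ mu n (ip a) := by
        rw [hmu']
        exact ENNReal.toReal_nonneg
      exact (e1.trans hl).trans (mul_le_mul_of_nonneg_right hKA e2)
  · intro N t ht q hq' F K₁ K₂ α β hab h1 h2 h3 h4 h5 h6 h7 h8
    obtain ⟨c, hcc⟩ := hc N F
    exact (hlw' N F c hcc t ht q hq' K₁ K₂ α β hab h1 h2 h3 h4 h5 h6 h7 h8).trans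
      (mul_le_mul_of_nonneg_right hA₁A (En_nonneg' _ _ _ _))
  · intro t F h0 h1
    refine le_trans ?_ (hcap' t F h0 h1)
    exact inv_anti₀ (by linarith) hA₂A

end Pool.Agent.Lib.MP_1d263a_an.PA
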