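import Pool.Agent.Lib.MP_1d263a_an.Metric
import Pool.Agent.Lib.MP_1d263a_an.PI.Defs

/-!
# Carpet project, part A: from a Poincare metric to the data `Dat p` of PI/Defs.lean

Definitions. The carpet carries the maximum metric. Cells are indexed by pairs of natural numbers:
the cell `a` of level `n` is `[a.1, a.1 + 1] × [a.2, a.2 + 1]` divided by `3 ^ n`.
-/

set_option autoImplicit false

namespace Pool.Agent.Lib.MP_1d263a_an.PA

open MeasureTheory
open scoped ENNReal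

/-! ### combinatorics of cells -/

open scoped Classical in
/-- the (alive) cells of level `n` -/
noncomputable def I (n : ℕ) : Finset (ℕ × ℕ) :=
  (Finset.range (3 ^ n) ×ˢ Finset.range (3 ^ n)).filter fun a => Alive n a.1 a.2

theorem mem_I {n : ℕ} {a : ℕ × ℕ} : a ∈ I n ↔ Alive n a.1 a.2 := by
  simp only [I, Finset.mem_filter, Finset.mem_product, Finset.mem_range, and_iff_right_iff_imp]
  exact fun h => ⟨h.1, h.2.1⟩

/-- the cells `a`, `b` touch (same level; a side, a corner, or equal) -/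
def Tch (a b : ℕ × ℕ) : Prop :=
  a.1 ≤ b.1 + 1 ∧ b.1 ≤ a.1 + 1 ∧ a.2 ≤ b.2 + 1 ∧ b.2 ≤ a.2 + 1

/-- the subcell of `a`, `n` levels below, with the relative position `b` -/
def sb (n : ℕ) (a b : ℕ × ℕ) : ℕ × ℕ := (a.1 * 3 ^ n + b.1, a.2 * 3 ^ n + b.2)

/-- the ancestor `j` levels above -/
def anc (j : ℕ) (a : ℕ × ℕ) : ℕ × ℕ := (a.1 / 3 ^ j, a.2 / 3 ^ j)

theorem Tch.refl (a : ℕ × ℕ) : Tch a a := ⟨by omega, by omega, by omega, by omega⟩

theorem Tch.symm {a b : ℕ × ℕ} (h : Tch a b) : Tch b a := ⟨h.2.1, h.1, h.2.2.2, h.2.2.1⟩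

open scoped Classical in
/-- the cells of level `n` which touch `a` -/
noncomputable def T (n : ℕ) (a : ℕ × ℕ) : Finset (ℕ × ℕ) := (I n).filter fun b => Tch a b

theorem mem_T {n : ℕ} {a b : ℕ × ℕ} : b ∈ T n a ↔ b ∈ I n ∧ Tch a b := by
  simp [T]

/-- the cells `a`, `b` (same level) are at most `L` steps apart in both coordinates -/
def Nb (L : ℕ) (a b : ℕ × ℕ) : Prop :=
  a.1 ≤ b.1 + L ∧ b.1 ≤ a.1 + L ∧ a.2 ≤ b.2 + L ∧ b.2 ≤ a.2 + L

open scoped Classical in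
/-- the energy of `W` (a function on the cells of level `k + n`) over the touching pairs whose first
member lies in a cell of level `k` at most `L` steps from `a` -/
noncomputable def EL (p : ℝ) (L k : ℕ) (a : ℕ × ℕ) (n : ℕ) (W : ℕ × ℕ → ℝ) : ℝ :=
  ∑ b ∈ (I (k + n)).filter (fun b => Nb L a (anc n b)), ∑ b' ∈ T (k + n) b, |W b - W b'| ^ p

open scoped Classical in
/-- the cells of level `k + n` inside the cells of level `k` which are at most `R` steps from `a` -/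
noncomputable def BR (R k : ℕ) (a : ℕ × ℕ) (n : ℕ) : Finset (ℕ × ℕ) :=
  (I (k + n)).filter fun b => Nb R a (anc n b)

/-! ### the cells as subsets of the carpet -/

/-- the closed cell -/
def Cl (n : ℕ) (a : ℕ × ℕ) : Set carpet :=
  {q | (a.1 : ℝ) / 3 ^ n ≤ q.1.1 ∧ q.1.1 ≤ ((a.1 : ℝ) + 1) / 3 ^ n ∧
    (a.2 : ℝ) / 3 ^ n ≤ q.1.2 ∧ q.1.2 ≤ ((a.2 : ℝ) + 1) / 3 ^ n}

/-- the open cell -/
def Op (n : ℕ) (a : ℕ × ℕ) : Set carpet :=
  {q | (a.1 : ℝ) / 3 ^ n < q.1.1 ∧ q.1.1 < ((a.1 : ℝ) + 1) / 3 ^ n ∧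
    (a.2 : ℝ) / 3 ^ n < q.1.2 ∧ q.1.2 < ((a.2 : ℝ) + 1) / 3 ^ n}

/-- a point in the middle of the cell `a` (a corner of the central hole); `(0, 0)` if `a` is not
alive -/
noncomputable def mid (n : ℕ) (a : ℕ × ℕ) : carpet :=
  open scoped Classical in
  if h : Alive n a.1 a.2 then ⟨pt (n + 1) (3 * a.1 + 1) (3 * a.2 + 1), center_mem h⟩ else p0

/-! ### quasisymmetric images, regular measures, Poincare inequality -/

/-- `f` is quasisymmetric with the function `η` (verbatim from the frozen statement) -/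
def QS {X : Type} [MetricSpace X] (f : carpet ≃ X) (η : ℝ → ℝ) : Prop :=
  η 0 = 0 ∧ StrictMonoOn η (Set.Ici 0) ∧ ContinuousOn η (Set.Ici 0) ∧
    ∀ x a b : carpet, ∀ t : ℝ, 0 ≤ t → dist x a ≤ t * dist x b →
      dist (f x) (f a) ≤ η t * dist (f x) (f b)

/-- Ahlfors regularity of a measure (in the frozen statement `μ` is the Hausdorff measure) -/
def AR {X : Type} [MetricSpace X] [MeasurableSpace X] (μ : Measure X) (p C : ℝ) : Prop :=
  ∀ x : X, ∀ r : ℝ, 0 < r → r ≤ Metric.diam (Set.univ : Set X) →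
    ENNReal.ofReal (C⁻¹ * r ^ p) ≤ μ (Metric.closedBall x r) ∧
      μ (Metric.closedBall x r) ≤ ENNReal.ofReal (C * r ^ p)

/-- `g` is an upper gradient of `u` (verbatim from the frozen statement) -/
def UG {X : Type} [MetricSpace X] (u : X → ℝ) (g : X → ℝ≥0∞) : Prop :=
  ∀ γ : ℝ → X, ∀ l : ℝ, 0 ≤ l → LipschitzOnWith 1 γ (Set.Icc 0 l) →
    ENNReal.ofReal |u (γ l) - u (γ 0)| ≤ ∫⁻ t in Set.Icc 0 l, g (γ t)

/-- the weak `(1,p)`-Poincare inequality (verbatim from the frozen statement) -/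
def PI {X : Type} [MetricSpace X] [MeasurableSpace X] (μ : Measure X) (p C L : ℝ) : Prop :=
  ∀ u : X → ℝ, Integrable u μ → ∀ g : X → ℝ≥0∞, Measurable g → UG u g →
    ∀ x : X, ∀ r : ℝ, 0 < r →
      (μ (Metric.ball x r))⁻¹ *
        ∫⁻ y in Metric.ball x r, ENNReal.ofReal |u y - ⨍ z in Metric.ball x r, u z ∂μ| ∂μ
      ≤ ENNReal.ofReal (C * r) *
        ((μ (Metric.ball x (L * r)))⁻¹ * ∫⁻ y in Metric.ball x (L * r), g y ^ p ∂μ) ^ (1 / p)

/-- the diameter of the image of a cell -/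
noncomputable def rad {X : Type} [MetricSpace X] (f : carpet ≃ X) (n : ℕ) (a : ℕ × ℕ) : ℝ :=
  Metric.diam (f '' Cl n a)

/-- the properties of a quasisymmetric image of the carpet which are used -/
structure Met {X : Type} [MetricSpace X] (f : carpet ≃ X) (H : ℝ) : Prop where
  one_le : 1 ≤ H
  bdd : Bornology.IsBounded (Set.univ : Set X)
  cont : Continuous f
  cont' : Continuous f.symm
  /-- diameters of images of cells are positive -/
  pos : ∀ n, ∀ a ∈ I n, 0 < rad f n a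
  /-- touching cells -/
  tch : ∀ n, ∀ a ∈ I n, ∀ b ∈ I n, Tch a b → ∀ x ∈ Cl n a, ∀ y ∈ Cl n b,
    dist (f x) (f y) ≤ H * rad f n a
  tch' : ∀ n, ∀ a ∈ I n, ∀ b ∈ I n, Tch a b → rad f n b ≤ H * rad f n a
  /-- children -/
  chi : ∀ n, ∀ a ∈ I n, ∀ b ∈ I 1, rad f n a ≤ H * rad f (n + 1) (sb 1 a b)
  /-- cells which do not touch are separated -/
  sep : ∀ n, ∀ a ∈ I n, ∀ b ∈ I n, ¬ Tch a b → ∀ x ∈ Cl n a, ∀ y ∈ Cl n b,
    rad f n a ≤ H * dist (f x) (f y)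
  /-- inner balls -/
  inn : ∀ n, ∀ a ∈ I n, ∀ y, y ∉ Op n a → rad f n a ≤ H * dist (f (mid n a)) (f y)
  /-- cells at most `R` steps apart -/
  near : ∀ R : ℕ, ∃ M : ℝ, 1 ≤ M ∧ ∀ n, ∀ a ∈ I n, ∀ b ∈ I n, Nb R a b →
    rad f n b ≤ M * rad f n a ∧ ∀ x ∈ Cl n a, ∀ y ∈ Cl n b, dist (f x) (f y) ≤ M * rad f n a
  /-- balls in `X` are contained in images of neighbourhoods of cells -/
  loc : ∀ M : ℝ, ∃ L : ℕ, ∀ k, ∀ a ∈ I k, ∀ z ∈ Cl k a, ∀ y,
    dist (f z) (f y) ≤ M * rad f k a → dist z y ≤ (L : ℝ) / 3 ^ k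

/-! ### the Lipschitz extension -/

section ext

variable {X : Type} [MetricSpace X]

/-- the bump function of the cell `a` of level `n` -/
noncomputable def psi (f : carpet ≃ X) (H : ℝ) (n : ℕ) (a : ℕ × ℕ) (ξ : X) : ℝ :=
  max 0 (1 - 4 * H / rad f n a * Metric.infDist ξ (f '' Cl n a))

/-- the sum of the bump functions -/
noncomputable def Psi (f : carpet ≃ X) (H : ℝ) (n : ℕ) (ξ : X) : ℝ :=
  ∑ a ∈ I n, psi f H n a ξ

/-- the extension of a function on the cells of level `n` -/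
noncomputable def ext (f : carpet ≃ X) (H : ℝ) (n : ℕ) (w : ℕ × ℕ → ℝ) (ξ : X) : ℝ :=
  (∑ a ∈ I n, w a * psi f H n a ξ) / Psi f H n ξ

/-- an open neighbourhood of the image of the cell `a` on which only the bump functions of the cells
touching `a` are different from `0` -/
def Vn (f : carpet ≃ X) (H : ℝ) (n : ℕ) (a : ℕ × ℕ) : Set X :=
  {ξ | ∀ b ∈ I n, ¬ Tch a b → rad f n b / (4 * H) < Metric.infDist ξ (f '' Cl n b)}

/-- the oscillation of `w` at the cell `a` -/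
noncomputable def osc (n : ℕ) (w : ℕ × ℕ → ℝ) (a : ℕ × ℕ) : ℝ := ∑ b ∈ T n a, |w b - w a|

/-- the upper gradient -/
noncomputable def gr (f : carpet ≃ X) (H K : ℝ) (n : ℕ) (w : ℕ × ℕ → ℝ) (ξ : X) : ℝ≥0∞ :=
  ∑ a ∈ I n, (Vn f H n a).indicator (fun _ => ENNReal.ofReal (K * osc n w a / rad f n a)) ξ

end ext

/-! ### the lattice of CarpetPI -/

open CarpetPI

/-- a cell with natural coordinates as a lattice point -/
def ip (a : ℕ × ℕ) : Pt := ((a.1 : ℤ), (a.2 : ℤ))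

open scoped Classical in
/-- the point `x / 3 ^ N` of the carpet -/
noncomputable def PP (N : ℕ) (x : Pt) : carpet :=
  if h : (((x.1 : ℝ) / 3 ^ N, (x.2 : ℝ) / 3 ^ N) : ℝ × ℝ) ∈ carpet then ⟨_, h⟩ else p0

/-- `c s q` (for cells `q` of size `3 ^ s`) is a chain of approximate mean values of `F` -/
def Ch (p C : ℝ) (κ N : ℕ) (F : Pt → ℝ) (c : ℕ → Pt → ℝ) : Prop :=
  (∀ s, s + 1 ≤ N → ∀ q ∈ Kept (N - (s + 1)), ∀ c' ∈ kids,
    |c (s + 1) q - c s (kid q c')| ≤ C * En p (Kept N) F (nb κ (s + 1) q) ^ (1 / p)) ∧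
  (∀ s, s ≤ N → ∀ q ∈ Kept (N - s), ∀ q' ∈ Kept (N - s), dis q q' ≤ 2 →
    |c s q - c s q'| ≤ C * En p (Kept N) F (nb κ s q) ^ (1 / p)) ∧
  (∀ q ∈ Kept N, ∀ x, IsCor x q → |F x - c 0 q| ≤ C * En p (Kept N) F (nb κ 0 q) ^ (1 / p))

end Pool.Agent.Lib.MP_1d263a_an.PA
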