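import Pool.Agent.Lib.MP_1d263a_an.PA.Defs

/-!
# Carpet project, part A: the statements of the pieces, with proofs in words

Goal (`S_final`): if a quasisymmetric image of the Sierpinski carpet is Ahlfors `p`-regular and
supports a weak `(1, p)`-Poincare inequality, then `1 < p` and there are data `CarpetPI.Dat p`.

A piece named `xx` proves `S_xx`, in the file `Pool/Agent/Lib/MP_1d263a_an/PA/P/xx.lean` (theorem
`p_xx`), and may assume the statements named in its docstring after the word Uses (as hypotheses of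
`p_xx`).
-/

set_option autoImplicit false

namespace Pool.Agent.Lib.MP_1d263a_an.PA

open MeasureTheory CarpetPI
open scoped ENNReal

/-! ### G: cells -/

/-- **alv.** Subcells and alive cells. Uses: nothing.

Proof. For `j < n` one has `(a₁ 3^n + b₁) / 3^j % 3 = b₁ / 3^j % 3` and for `j ≥ n` one has
`(a₁ 3^n + b₁) / 3^j = a₁ / 3^(j-n)` because `b₁ < 3^n`; the digits `b₁ / 3^j % 3` with `j ≥ n` are `0`.
Unfold `Alive` (use `mem_I`). The size conditions: `a₁ 3^n + b₁ < 3^(k+n)` iff `a₁ < 3^k`. -/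
def S_alv : Prop := ∀ k n : ℕ, ∀ a b : ℕ × ℕ, b.1 < 3 ^ n → b.2 < 3 ^ n →
  (sb n a b ∈ I (k + n) ↔ a ∈ I k ∧ b ∈ I n)

/-- **anc.** Ancestors. Uses: `S_alv`.

Proof. `(a 3^n + b) / 3^n = a` for `b < 3^n`; `a = (a / 3^n) 3^n + a % 3^n`, then `S_alv`; `anc` of
`anc`: `Nat.div_div_eq_div_mul`; the last statement: `x ≤ y + L` implies `x / 3^n ≤ y / 3^n + L`. -/
def S_anc : Prop :=
  (∀ n : ℕ, ∀ a b : ℕ × ℕ, b.1 < 3 ^ n → b.2 < 3 ^ n → anc n (sb n a b) = a) ∧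
  (∀ k n : ℕ, ∀ a ∈ I (k + n), anc n a ∈ I k ∧ (a.1 % 3 ^ n, a.2 % 3 ^ n) ∈ I n ∧
    sb n (anc n a) (a.1 % 3 ^ n, a.2 % 3 ^ n) = a) ∧
  (∀ i j : ℕ, ∀ a : ℕ × ℕ, anc i (anc j a) = anc (i + j) a) ∧
  (∀ L n : ℕ, ∀ a b : ℕ × ℕ, Nb L a b → Nb L (anc n a) (anc n b))

/-- **cnt.** Counting. Uses: nothing. (`T n a` has at most `9` elements, at most `(2 L + 1)^2` cells are
within `L` steps of `a`.) -/
def S_cnt : Prop :=
  (∀ (n : ℕ) (a : ℕ × ℕ), (T n a).card ≤ 9) ∧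
  (∀ (L : ℕ) (a : ℕ × ℕ) (s : Finset (ℕ × ℕ)), (∀ b ∈ s, Nb L a b) → s.card ≤ (2 * L + 1) ^ 2)

/-- **mem.** Every point of a cell lies in a subcell. Uses: `S_alv`.

Proof. Induction over `n` (`n = 0`: `I 0` contains `(0, 0)` and `sb 0 a (0, 0) = a`). Step: let
`q ∈ Cl (k + n) (sb n a b)`, `c = sb n a b`, `t = 3^(k+n+1) q₁ - 3 c₁ ∈ [0, 3]`,
`s = 3^(k+n+1) q₂ - 3 c₂ ∈ [0, 3]`. Choose `i = 0` if `t ≤ 1`, `i = 2` if `t ≥ 2` and `i = 1` otherwise,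
in the same way `j` for `s`. If `i = j = 1` then `q` is in the removed open square with the
numbers `k + n`, `c₁`, `c₂`, contradiction to `q ∈ carpet`. So `(i, j) ∈ I 1` and
`b' = (3 b₁ + i, 3 b₂ + j) ∈ I (n + 1)` (`Alive.sub` or `S_alv`) satisfies
`q ∈ Cl (k + n + 1) (sb (n + 1) a b')`. -/
def S_mem : Prop := ∀ k : ℕ, ∀ a ∈ I k, ∀ q ∈ Cl k a, ∀ n : ℕ, ∃ b ∈ I n, q ∈ Cl (k + n) (sb n a b)

/-- **geo.** Elementary geometry of the cells (maximum metric). Uses: nothing.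

(1) diameter of a cell, (2) cells which do not touch, (3) cells at most `R` steps apart, (4) every
point of a cell has a point at distance at least half the side in the cell (take one of the corners
`pt n a₁ a₂`, `pt n (a₁ + 1) a₂`, see `pt_mem`), (5) `mid`, (6) the ball around `mid` in the open cell
(`mid` has the coordinates `(3 a₁ + 1) / 3^(n+1)`, `(3 a₂ + 1) / 3^(n+1)`), (7) an open cell does not meet
another closed cell, (8), (9) inclusions. -/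
def S_geo : Prop :=
  (∀ (n : ℕ) (a : ℕ × ℕ), ∀ x ∈ Cl n a, ∀ y ∈ Cl n a, dist x y ≤ (1 : ℝ) / 3 ^ n) ∧
  (∀ (n : ℕ) (a b : ℕ × ℕ), ¬ Tch a b → ∀ x ∈ Cl n a, ∀ y ∈ Cl n b, (1 : ℝ) / 3 ^ n ≤ dist x y) ∧
  (∀ (R n : ℕ) (a b : ℕ × ℕ), Nb R a b → ∀ x ∈ Cl n a, ∀ y ∈ Cl n b,
    dist x y ≤ ((R : ℝ) + 1) / 3 ^ n) ∧
  (∀ n : ℕ, ∀ a ∈ I n, ∀ x ∈ Cl n a, ∃ z ∈ Cl n a, (1 : ℝ) / (2 * 3 ^ n) ≤ dist x z) ∧
  (∀ n : ℕ, ∀ a ∈ I n, mid n a ∈ Cl n a) ∧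
  (∀ n : ℕ, ∀ a ∈ I n, ∀ y, dist (mid n a) y < (1 : ℝ) / 3 ^ (n + 1) → y ∈ Op n a) ∧
  (∀ (n : ℕ) (a b : ℕ × ℕ), a ≠ b → Disjoint (Op n a) (Cl n b)) ∧
  (∀ (n : ℕ) (a : ℕ × ℕ), Op n a ⊆ Cl n a) ∧
  (∀ (k n : ℕ) (a b : ℕ × ℕ), b.1 < 3 ^ n → b.2 < 3 ^ n → Cl (k + n) (sb n a b) ⊆ Cl k a)

/-- **top.** Topology. Uses: nothing. (The carpet is a closed bounded subset of the plane; cells are
preimages of closed or open rectangles.) -/
def S_top : Prop := IsCompact carpet ∧ (∀ (n : ℕ) (a : ℕ × ℕ), IsClosed (Cl n a)) ∧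
  ∀ (n : ℕ) (a : ℕ × ℕ), IsOpen (Op n a)

/-! ### M: the metric -/

/-- **met1.** Uses: nothing (`dist_le_one`, `one_le_dist`, `p0`, `p1`, `bdd` in Metric.lean, applied to
`WQS f (η 1)`).

Proof. Apply the condition with `t = 1`: `WQS f (η 1)`, so `1 ≤ η 1` (`one_le_H`) and `X` is bounded
(`bdd`). Continuity of `f` at `x`: there is `b` (`p0` or `p1`) with `dist x b ≥ 1/2`, so for all `a`,
`dist x a ≤ t dist x b` with `t = 2 dist x a`, so `dist (f x) (f a) ≤ η (2 dist x a) diam X`, which tends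
to `η 0 · diam X = 0` for `a → x`. Continuity of the inverse at `f x`: let `δ > 0` and
`dist x a ≥ δ`; for all `b`, `dist x b ≤ 1 ≤ δ⁻¹ dist x a`, so `dist (f x) (f b) ≤ η δ⁻¹ dist (f x) (f a)`;
with `b = p0` or `p1`, whichever has `dist (f x) (f b) ≥ d / 2` where `d = dist (f p0) (f p1) > 0`:
`dist (f x) (f a) ≥ d / (2 η δ⁻¹)`. -/
def S_met1 : Prop := ∀ (X : Type) [MetricSpace X] (f : carpet ≃ X) (η : ℝ → ℝ), QS f η →
  1 ≤ η 1 ∧ Bornology.IsBounded (Set.univ : Set X) ∧ Continuous f ∧ Continuous f.symm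

/-- **met2.** Uses: `S_geo`, `S_met1`, `S_alv`.

Let `H = 2 η 6` (so `H ≥ 2 η t` for all `0 ≤ t ≤ 6`, and `H ≥ 2`). Distances in `f '' Cl n a` are at most
`rad f n a` (bounded set), and `rad f n a ≤ c` if all distances are at most `c ≥ 0`
(`Metric.diam_le_of_forall_dist_le`).

(pos) By `S_geo` (4) the cell has two different points.
(tch) `x ∈ Cl n a`, choose `z ∈ Cl n a` with `dist x z ≥ 1 / (2 · 3^n)`; for `y ∈ Cl n b`:
`dist x y ≤ 2 / 3^n ≤ 4 dist x z` (`Tch` is `Nb 1`), so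
`dist (f x) (f y) ≤ η 4 dist (f x) (f z) ≤ η 4 rad f n a`.
(tch') with a fixed `x ∈ Cl n a` two points of `f '' Cl n b` have distance at most `2 η 4 rad f n a`.
(chi) let `c = sb 1 a b`, `Cl (n+1) c ⊆ Cl n a`; take `y ∈ Cl (n+1) c` and `z ∈ Cl (n+1) c` with
`dist y z ≥ 1 / (2 · 3^(n+1))`. For `x ∈ Cl n a`: `dist y x ≤ 1 / 3^n ≤ 6 dist y z`, so
`dist (f y) (f x) ≤ η 6 rad f (n+1) c`; two points: `2 η 6`.
(sep) `x ∈ Cl n a`, `y ∈ Cl n b`, `dist x y ≥ 1 / 3^n ≥ dist x x'` for `x' ∈ Cl n a`, so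
`dist (f x) (f x') ≤ η 1 dist (f x) (f y)` and `rad f n a ≤ 2 η 1 dist (f x) (f y)`.
(inn) `y ∉ Op n a`, then `dist (mid n a) y ≥ 1 / 3^(n+1)` (`S_geo` (6)) and `dist (mid n a) x ≤ 1 / 3^n`,
so `dist (f mid) (f x) ≤ η 3 dist (f mid) (f y)` for all `x ∈ Cl n a`. -/
def S_met2 : Prop := ∀ (X : Type) [MetricSpace X] (f : carpet ≃ X) (η : ℝ → ℝ), QS f η →
  (∀ n, ∀ a ∈ I n, 0 < rad f n a) ∧
  (∀ n, ∀ a ∈ I n, ∀ b ∈ I n, Tch a b → ∀ x ∈ Cl n a, ∀ y ∈ Cl n b,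
    dist (f x) (f y) ≤ 2 * η 6 * rad f n a) ∧
  (∀ n, ∀ a ∈ I n, ∀ b ∈ I n, Tch a b → rad f n b ≤ 2 * η 6 * rad f n a) ∧
  (∀ n, ∀ a ∈ I n, ∀ b ∈ I 1, rad f n a ≤ 2 * η 6 * rad f (n + 1) (sb 1 a b)) ∧
  (∀ n, ∀ a ∈ I n, ∀ b ∈ I n, ¬ Tch a b → ∀ x ∈ Cl n a, ∀ y ∈ Cl n b,
    rad f n a ≤ 2 * η 6 * dist (f x) (f y)) ∧
  (∀ n, ∀ a ∈ I n, ∀ y, y ∉ Op n a → rad f n a ≤ 2 * η 6 * dist (f (mid n a)) (f y))

/-- **met3.** Uses: `S_geo`, `S_met1`.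

(near) For `x ∈ Cl n a` choose `z ∈ Cl n a` with `dist x z ≥ 1 / (2 · 3^n)`; for `y ∈ Cl n b`:
`dist x y ≤ (R + 1) / 3^n ≤ 2 (R + 1) dist x z`, so `dist (f x) (f y) ≤ η (2 (R + 1)) rad f n a`, and
`rad f n b ≤ 2 η (2 (R + 1)) rad f n a`. `M = 2 η (2 (R + 1)) ≥ 1`.
(loc) Choose `L ≥ 1` with `2 M η (1 / L) < 1` (possible: `η (1/L) → η 0 = 0`). Suppose
`dist z y > L / 3^k`. For `x ∈ Cl k a`: `dist z x ≤ 1 / 3^k ≤ (1 / L) dist z y`, so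
`dist (f z) (f x) ≤ η (1 / L) dist (f z) (f y) ≤ η (1 / L) M rad f k a`; so
`rad f k a ≤ 2 η (1 / L) M rad f k a`; as `rad f k a > 0` (two different points in the cell),
this is a contradiction. -/
def S_met3 : Prop := ∀ (X : Type) [MetricSpace X] (f : carpet ≃ X) (η : ℝ → ℝ), QS f η →
  (∀ R : ℕ, ∃ M : ℝ, 1 ≤ M ∧ ∀ n, ∀ a ∈ I n, ∀ b ∈ I n, Nb R a b →
    rad f n b ≤ M * rad f n a ∧ ∀ x ∈ Cl n a, ∀ y ∈ Cl n b, dist (f x) (f y) ≤ M * rad f n a) ∧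
  (∀ M : ℝ, ∃ L : ℕ, ∀ k, ∀ a ∈ I k, ∀ z ∈ Cl k a, ∀ y,
    dist (f z) (f y) ≤ M * rad f k a → dist z y ≤ (L : ℝ) / 3 ^ k)

/-! ### N: the measure

`μ` is an Ahlfors regular measure on `X`, where `Met f H`. -/

/-- **mr.** Comparison of the measure and the diameter of a cell. Uses: `S_geo`, `S_top`.

Proof. `X` is bounded, `Δ = Metric.diam Set.univ > 0`, `X = Metric.closedBall x Δ`, so `μ univ < ∞`
(`AR` with `r = Δ`). Upper bound: `f '' Cl n a ⊆ closedBall (f (mid n a)) (rad f n a)` and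
`rad f n a ≤ Δ`: `μ ≤ C (rad f n a)^p`. Lower bound: `closedBall (f (mid n a)) (rad f n a / (2 H))`
is contained in `f '' Op n a`, since `f y` in this ball and `y ∉ Op n a` would give
`rad f n a ≤ H · rad f n a / (2 H)` by `Met.inn`: so `μ (f '' Op n a) ≥ C⁻¹ (rad f n a / (2 H))^p`.
`K = C (2 H)^p`. -/
def S_mr : Prop := ∀ (X : Type) [MetricSpace X] [MeasurableSpace X] [BorelSpace X]
  (f : carpet ≃ X) (H : ℝ) (μ : Measure X) (p C : ℝ), 0 < p → 1 ≤ C → Met f H → AR μ p C →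
  IsFiniteMeasure μ ∧ ∃ K : ℝ, 1 ≤ K ∧ ∀ n, ∀ a ∈ I n,
    ENNReal.ofReal (K⁻¹ * rad f n a ^ p) ≤ μ (f '' Op n a) ∧
    μ (f '' Cl n a) ≤ ENNReal.ofReal (K * rad f n a ^ p)

/-- **null.** The images of the boundaries of the cells are null sets. Uses: `S_geo`, `S_top`, `S_mr`,
`S_mem`, `S_alv`, `S_anc`.

Proof. It is enough to show `μ (f '' Z) = 0` for `Z = {q | q₁ = i / 3^n}` and for
`Z = {q | q₂ = i / 3^n}` (four lines cover `Cl n a \ Op n a`). Take the first. For `N ≥ n` let `U N` be the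
set of the cells `c ∈ I N` with `c₁ = i 3^(N-n)` or `c₁ + 1 = i 3^(N-n)` (those meeting the line) and
`V N = ⋃_{c ∈ U N} f '' Cl N c` (closed, contains `f '' Z` by `S_mem` with `k = 0`). Every `c ∈ U N` has a
child `c' = (3 c₁ + 2, 3 c₂)` resp. `(3 c₁, 3 c₂)` in `I (N+1)` which is not in `U (N+1)`; the
sets `f '' Op (N+1) c'` (for different `c`) are disjoint, open, contained in `V N` and disjoint from
`V (N+1)` (`S_geo` (7)), and
`μ (f '' Op (N+1) c') ≥ K⁻¹ rad(c')^p ≥ K⁻¹ H^(-p) rad(c)^p ≥ K^(-2) H^(-p) μ (f '' Cl N c)`. Also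
`V (N+1) ⊆ V N` (the parent of a cell in `U (N+1)` is in `U N`). So with `θ = K^(-2) H^(-p)`:
`μ (V (N+1)) ≤ μ (V N) - θ Σ_c μ (f '' Cl N c) ≤ (1 - θ) μ (V N)`, and `μ (V N) → 0`. -/
def S_null : Prop := ∀ (X : Type) [MetricSpace X] [MeasurableSpace X] [BorelSpace X]
  (f : carpet ≃ X) (H : ℝ) (μ : Measure X) (p C : ℝ), 0 < p → 1 ≤ C → Met f H → AR μ p C →
  ∀ (n : ℕ), ∀ a ∈ I n, μ (f '' (Cl n a \ Op n a)) = 0

/-- **add.** Additivity. Uses: `S_geo`, `S_top`, `S_null`, `S_mem`, `S_alv`.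

Proof. `f '' Cl k a` is the union of the sets `f '' Cl (k+n) (sb n a b)`, `b ∈ I n` (`S_mem`,
`S_geo` (9)); they are closed, and two different ones meet in a subset of
`f '' (Cl \ Op)` of the first (`S_geo` (7)), a null set (`S_null`); `measure_biUnion_finset₀`. -/
def S_add : Prop := ∀ (X : Type) [MetricSpace X] [MeasurableSpace X] [BorelSpace X]
  (f : carpet ≃ X) (H : ℝ) (μ : Measure X) (p C : ℝ), 0 < p → 1 ≤ C → Met f H → AR μ p C →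
  ∀ k, ∀ a ∈ I k, ∀ n, μ (f '' Cl k a) = ∑ b ∈ I n, μ (f '' Cl (k + n) (sb n a b))

/-! ### P: the Poincare inequality -/

/-- **cov.** An upper gradient from a finite cover by open sets on which the function is Lipschitz.
Uses: nothing.

Proof. Let `γ` be a curve as in `UG`, `l > 0` (`l = 0` is trivial). The sets
`{t ∈ Set.Icc 0 l | γ t ∈ V i}` are open in `Set.Icc 0 l` and cover it; by
`exists_monotone_Icc_subset_open_cover_Icc` there is a monotone sequence `t 0 = 0 ≤ t 1 ≤ … ≤ t m = l` such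
that `γ` maps `[t j, t (j+1)]` into one `V i`, `i ∈ s`. Then
`|u (γ (t (j+1))) - u (γ (t j))| ≤ L i dist (γ (t (j+1))) (γ (t j)) ≤ L i (t (j+1) - t j) ≤
∫⁻ in [t j, t (j+1)] of the sum of indicators` (the indicator of `V i` equals `1` along this part).
Add up (`lintegral` over `Set.Icc 0 l` is at least the sum of the `lintegral`s over
`Set.Ioc (t j) (t (j+1))`). -/
def S_cov : Prop := ∀ (X : Type) [MetricSpace X] (s : Finset (ℕ × ℕ)) (V : ℕ × ℕ → Set X)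
  (L : ℕ × ℕ → ℝ) (u : X → ℝ),
  (∀ i ∈ s, IsOpen (V i)) → (∀ ξ, ∃ i ∈ s, ξ ∈ V i) → (∀ i ∈ s, 0 ≤ L i) →
  (∀ i ∈ s, ∀ ξ ∈ V i, ∀ ζ ∈ V i, |u ξ - u ζ| ≤ L i * dist ξ ζ) →
  UG u (fun ξ => ∑ i ∈ s, (V i).indicator (fun _ => ENNReal.ofReal (L i)) ξ)

/-- **psi.** The bump functions. Uses: `S_geo`, `S_top`, `S_mem`.

Proof. (1) For `ξ ∈ f '' Cl n a` and `b` not touching `a`: every `y ∈ Cl n b` has
`rad f n b ≤ H dist (f y) ξ` (`Met.sep`, roles exchanged), so `Metric.infDist ξ (f '' Cl n b) ≥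
rad f n b / H > rad f n b / (4 H)`. (2) finitely many conditions (`b ∈ I n`), `infDist` is continuous.
(3) the maximum is `0`. (4) `infDist ξ (f '' Cl n a) = 0`. (5) every `ξ` lies in some `f '' Cl n a`,
`a ∈ I n` (`S_mem` with `k = 0`), all terms are nonnegative. (6) clear. (7) `infDist` is
`1`-Lipschitz and `max 0` is `1`-Lipschitz. (8) see (5). -/
def S_psi : Prop := ∀ (X : Type) [MetricSpace X] (f : carpet ≃ X) (H : ℝ), Met f H → ∀ n : ℕ,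
  (∀ a ∈ I n, ∀ ξ ∈ f '' Cl n a, ξ ∈ Vn f H n a) ∧
  (∀ a ∈ I n, IsOpen (Vn f H n a)) ∧
  (∀ a ∈ I n, ∀ ξ ∈ Vn f H n a, ∀ b ∈ I n, ¬ Tch a b → psi f H n b ξ = 0) ∧
  (∀ a ∈ I n, ∀ ξ ∈ f '' Cl n a, psi f H n a ξ = 1) ∧
  (∀ ξ, 1 ≤ Psi f H n ξ) ∧
  (∀ a ∈ I n, ∀ ξ, 0 ≤ psi f H n a ξ ∧ psi f H n a ξ ≤ 1) ∧
  (∀ a ∈ I n, ∀ ξ ζ, |psi f H n a ξ - psi f H n a ζ| ≤ 4 * H / rad f n a * dist ξ ζ) ∧
  (∀ ξ, ∃ a ∈ I n, ξ ∈ f '' Cl n a)

/-- **lip.** The extension. Uses: `S_psi`, `S_cnt`.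

Proof. (1) quotient of continuous functions, denominator at least `1`. (2) For `ξ, ζ ∈ Vn f H n a` only the
`ψ_b` with `b ∈ T n a` are different from `0` at `ξ` or at `ζ` (`S_psi` (3)), so with `Ψ = Σ ψ_b`:
`ext ξ - ext ζ = Σ_{b ∈ T n a} (w b - w a) (ψ_b ξ / Ψ ξ - ψ_b ζ / Ψ ζ)` (as `Σ_b ψ_b / Ψ = 1` at both
points) and `|ψ_b ξ / Ψ ξ - ψ_b ζ / Ψ ζ| ≤ |ψ_b ξ - ψ_b ζ| / Ψ ξ + ψ_b ζ |Ψ ζ - Ψ ξ| / (Ψ ξ Ψ ζ)
≤ |ψ_b ξ - ψ_b ζ| + Σ_{b' ∈ T n a} |ψ_{b'} ξ - ψ_{b'} ζ| ≤ 10 · (4 H · H / rad f n a) dist ξ ζ`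
(`rad f n a ≤ H rad f n b` for `b ∈ T n a`, `Met.tch'`). (3) for `ξ ∈ f '' Cl n a ⊆ Vn f H n a`:
`ext ξ - w a = Σ_{b ∈ T n a} (w b - w a) ψ_b ξ / Ψ ξ` and `0 ≤ ψ_b ξ / Ψ ξ ≤ 1`. -/
def S_lip : Prop := ∀ (X : Type) [MetricSpace X] (f : carpet ≃ X) (H : ℝ), Met f H →
  ∀ (n : ℕ) (w : ℕ × ℕ → ℝ),
  Continuous (ext f H n w) ∧
  (∀ a ∈ I n, ∀ ξ ∈ Vn f H n a, ∀ ζ ∈ Vn f H n a,
    |ext f H n w ξ - ext f H n w ζ| ≤ 40 * H ^ 2 * osc n w a / rad f n a * dist ξ ζ) ∧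
  (∀ a ∈ I n, ∀ ξ ∈ f '' Cl n a, |ext f H n w ξ - w a| ≤ osc n w a)

/-- **gp.** The energy of the upper gradient on the image of a cell. Uses: `S_psi`, `S_cnt`, `S_mr`.

Proof. (1) finite sum of indicators of open sets. (2) For `ξ ∈ f '' Cl n b` and `a ∈ I n`,
`ξ ∈ Vn f H n a`, the cell `b` touches `a` (otherwise `Metric.infDist ξ (f '' Cl n b) = 0` is larger than
`rad f n b / (4 H) ≥ 0`). So `gr ξ ≤ Σ_{a ∈ T n b} ofReal (K osc(a) / rad(a))` and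
`(gr ξ)^p ≤ ofReal (9^p Σ_{a ∈ T n b} (K osc(a) / rad(a))^p)` (`(x₁ + … + x_9)^p ≤ 9^p max x_i^p`), and
`rad f n a ≥ rad f n b / H` (`Met.tch'`). Integrate over `f '' Cl n b`, `μ (f '' Cl n b) ≤ K₁ rad(b)^p`
(`S_mr`). The constant is `9^p K^p H^p K₁`. -/
def S_gp : Prop := ∀ (X : Type) [MetricSpace X] [MeasurableSpace X] [BorelSpace X]
  (f : carpet ≃ X) (H : ℝ) (μ : Measure X) (p C K : ℝ), 0 < p → 1 ≤ C → 0 ≤ K → Met f H →
  AR μ p C →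
  (∀ (n : ℕ) (w : ℕ × ℕ → ℝ), Measurable (gr f H K n w)) ∧
  ∃ K' : ℝ, 0 ≤ K' ∧ ∀ (n : ℕ) (w : ℕ × ℕ → ℝ), ∀ b ∈ I n,
    ∫⁻ ξ in f '' Cl n b, gr f H K n w ξ ^ p ∂μ ≤
      ENNReal.ofReal (K' * ∑ a ∈ T n b, osc n w a ^ p)

/-- **reg.** Balls in `X` are covered by the images of the cells near to a cell. Uses: `S_geo`, `S_mem`,
`S_anc`.

Proof. Take `L₀` from `Met.loc` for `M` and `L = L₀ + 1`. Let `ξ = f y` be in the ball; `mid k a ∈ Cl k a`,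
so `dist (mid k a) y ≤ L₀ / 3^k`. By `S_mem` (with `k = 0`, the cell `(0, 0)`, level `k + n`) `y ∈ Cl (k+n) b`
with `b ∈ I (k + n)`, and `y ∈ Cl k (anc n b)` (`S_geo` (9), `S_anc`). The first coordinates of
`mid k a` and `y` are in `[a₁, a₁ + 1] / 3^k` and in `[c₁, c₁ + 1] / 3^k`, where `c = anc n b`, so
`|a₁ - c₁| ≤ L₀ + 1`. -/
def S_reg : Prop := ∀ (X : Type) [MetricSpace X] (f : carpet ≃ X) (H : ℝ), Met f H →
  ∀ M : ℝ, ∃ L : ℕ, ∀ k, ∀ a ∈ I k, ∀ n, ∀ ξ : X,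
    dist (f (mid k a)) ξ ≤ M * rad f k a → ∃ b ∈ I (k + n), Nb L a (anc n b) ∧ ξ ∈ f '' Cl (k + n) b

/-- **int.** The energy of the upper gradient on a ball. Uses: `S_gp`, `S_reg`, `S_cnt`, `S_anc`.

Proof. Take `L₀` from `S_reg` and `L = L₀ + 1`. By `S_reg` and `S_gp` the integral is at most
`Σ_{b ∈ I (k+n), Nb L₀ a (anc n b)} K' Σ_{b' ∈ T (k+n) b} osc(b')^p`. Each `b'` touches `b`, so
`Nb (L₀ + 1) a (anc n b')` (`S_anc`: `Nb 1` is `Tch`), and each `b'` occurs at most `9` times (`S_cnt`),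
so the integral is at most `9 K' Σ_{b' ∈ I (k+n), Nb L a (anc n b')} osc(b')^p`, and
`osc(b')^p ≤ 9^p Σ_{c ∈ T (k+n) b'} |W c - W b'|^p`. -/
def S_int : Prop := ∀ (X : Type) [MetricSpace X] [MeasurableSpace X] [BorelSpace X]
  (f : carpet ≃ X) (H : ℝ) (μ : Measure X) (p C K M : ℝ), 0 < p → 1 ≤ C → 0 ≤ K → Met f H →
  AR μ p C →
  ∃ (K' : ℝ) (L : ℕ), 0 ≤ K' ∧ ∀ k, ∀ a ∈ I k, ∀ (n : ℕ) (W : ℕ × ℕ → ℝ),
    ∫⁻ ξ in Metric.ball (f (mid k a)) (M * rad f k a), gr f H K (k + n) W ξ ^ p ∂μ ≤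
      ENNReal.ofReal (K' * EL p L k a n W)

/-- **lhs.** The left side of the Poincare inequality. Uses: `S_mr`, `S_add`, `S_null`, `S_lip`, `S_cnt`,
`S_geo`, `S_anc`, `S_top`, `S_alv`.

Proof. Take `M` from `Met.near` for `R`. Let `u = ext f H (k+n) W` and let `c` be any real number. For
`b ∈ BR R k a n` the image `f '' Cl (k+n) b` is contained in
`Metric.ball (f (mid k a)) (2 M rad f k a)`; these sets are closed and meet in null sets (`S_null`,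
`S_geo` (7)), so `Σ_b μ(f '' Cl (k+n) b) |W b - c| ≤
Σ_b ∫ over f '' Cl (k+n) b of (|W b - u| + |u - c|)
≤ Σ_b μ(f '' Cl (k+n) b) osc(b) + ∫ over the ball of |u - c|` (`S_lip` (3); all is finite, as
`μ` is finite and `u` is bounded: `X` is the continuous image of a compact set, or
`|u| ≤ Σ_{b ∈ I (k+n)} |W b|`). The first sum is at most `(Σ_b μ(f '' Cl (k+n) b)) max_b osc(b)` and
`Σ_b μ(f '' Cl (k+n) b) = Σ μ (f '' Cl k a')` over the at most `(2 R + 1)^2` cells `a' ∈ I k` with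
`Nb R a a'` (`S_add`), `≤ (2 R + 1)^2 K rad(a')^p ≤ K' μ (f '' Cl k a)` (`S_mr`, `Met.near`), and
`osc(b)^p ≤ 9^p Σ_{b' ∈ T (k+n) b} |W b' - W b|^p ≤ 9^p EL p L k a n W` for every `L ≥ R` (`b` itself
satisfies `Nb L a (anc n b)`). -/
def S_lhs : Prop := ∀ (X : Type) [MetricSpace X] [MeasurableSpace X] [BorelSpace X]
  (f : carpet ≃ X) (H : ℝ) (μ : Measure X) (p C : ℝ) (R : ℕ), 1 ≤ p → 1 ≤ C → Met f H → AR μ p C →
  ∃ K M : ℝ, 0 ≤ K ∧ 1 ≤ M ∧ ∀ k, ∀ a ∈ I k, ∀ (n L : ℕ) (W : ℕ × ℕ → ℝ) (c : ℝ), R ≤ L →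
    ∑ b ∈ BR R k a n, (μ (f '' Cl (k + n) b)).toReal * |W b - c| ≤
      K * (μ (f '' Cl k a)).toReal * EL p L k a n W ^ (1 / p) +
      (∫⁻ ξ in Metric.ball (f (mid k a)) (2 * M * rad f k a),
        ENNReal.ofReal |ext f H (k + n) W ξ - c| ∂μ).toReal

/-- **poinR.** The Poincare inequality near a cell. Uses: `S_cov`, `S_psi`, `S_lip`, `S_gp`, `S_int`,
`S_lhs`, `S_mr`, `S_geo`, `S_top`.

Proof. Take `K`, `M` from `S_lhs`. Let `u = ext f H (k+n) W`, `g = gr f H (40 H^2) (k+n) W`. By `S_lip` (2),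
`S_psi` and `S_cov`, `g` is an upper gradient of `u`; `u` is continuous and bounded (`X` is compact as the
continuous image of the compact carpet), so integrable (`μ` is finite by `S_mr`); `g` is measurable
(`S_gp`). Apply `PI` with `x = f (mid k a)`, `r = 2 M rad f k a`, and let `c` be the mean. On the
right: by `S_int` (with `2 M L'` for `M`) `∫ g^p ≤ K' EL`; the measure of the ball
`B(x, L' r) ⊇ f '' Cl k a` is at least `K₁⁻¹ rad(a)^p` (`S_mr`), so the right side is at most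
`C' r (K₁ K' EL / rad(a)^p)^(1/p) = 2 M C' (K₁ K')^(1/p) EL^(1/p)`. On the left:
`μ (B(x, r)) ≤ C r^p` (if `r ≤ diam X` by `AR`; otherwise `B(x, r) ⊆ X = closedBall x (diam X)` and
`μ X ≤ C (diam X)^p ≤ C r^p`; also `μ (B(x, r)) > 0`), so
`∫ over B(x, r) of |u - c| ≤ C (2 M)^p rad(a)^p · (right side) ≤ K'' μ (f '' Cl k a) EL^(1/p)`. Then
`S_lhs`, with `L` the maximum of `R` and the `L` of `S_int` (`EL` is monotone in `L`). -/
def S_poinR : Prop := ∀ (X : Type) [MetricSpace X] [MeasurableSpace X] [BorelSpace X]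
  (f : carpet ≃ X) (H : ℝ) (μ : Measure X) (p C C' L' : ℝ) (R : ℕ), 1 ≤ p → 1 ≤ C → Met f H →
  AR μ p C → 0 < C' → 1 ≤ L' → PI μ p C' L' →
  ∃ (K : ℝ) (L : ℕ), R ≤ L ∧ 0 ≤ K ∧ ∀ k, ∀ a ∈ I k, ∀ n, ∀ W : ℕ × ℕ → ℝ, ∃ c : ℝ,
    ∑ b ∈ BR R k a n, (μ (f '' Cl (k + n) b)).toReal * |W b - c| ≤
      K * (μ (f '' Cl k a)).toReal * EL p L k a n W ^ (1 / p)

/-! ### C: the lattice of CarpetPI -/

/-- **kept.** The two descriptions of cells. Uses: nothing.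

(1) `Kept N` and `I N`: the digits of a natural number `< 3^N` at places `≥ N` vanish, division and
remainder of natural numbers and of integers agree. (2) `anc`: the division again. (3) the children. -/
def S_kept : Prop :=
  (∀ (N : ℕ) (q : Pt), q ∈ Kept N ↔ ∃ a ∈ I N, ip a = q) ∧
  (∀ (n : ℕ) (a : ℕ × ℕ), ip (anc n a) = ((ip a).1 / 3 ^ n, (ip a).2 / 3 ^ n)) ∧
  (∀ c' : Pt, c' ∈ kids ↔ ∃ b ∈ I 1, ip b = c') ∧
  (∀ a b : ℕ × ℕ, kid (ip a) (ip b) = ip (sb 1 a b)) ∧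
  (∀ a b : ℕ × ℕ, ip a = ip b → a = b) ∧
  (∀ (R : ℕ) (a b : ℕ × ℕ), Nb R a b ↔ dis (ip a) (ip b) ≤ R)

/-- **cv.** From functions on vertices to functions on cells. Uses: `S_kept`, `S_cnt`, `S_anc`.

Let `W b = F (ip b)` (the value at the lower left corner of the cell `b`). If `b`, `b'` touch, they have
a common corner `z`; from `ip b` to `z` one goes along at most two sides of `b`, from `z` to `ip b'`
along at most two sides of `b'`, so `|W b - W b'|^p ≤ 4^p (fe b + fe b')`. Add up over `b ∈ I (k+n)` with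
`Nb L a (anc n b)` (then the face `ip b` is in `nb L n (ip a)`) and `b' ∈ T (k+n) b` (then the face
`ip b'` is in `nb (L + 1) n (ip a)`); each face occurs at most `9` times in each role. -/
def S_cv : Prop := ∀ (p : ℝ), 1 ≤ p → ∀ (L k : ℕ), ∀ a ∈ I k, ∀ (n : ℕ) (F : Pt → ℝ),
  EL p L k a n (fun b => F (ip b)) ≤ 18 * 4 ^ p * En p (Kept (k + n)) F (nb (L + 1) n (ip a))

/-- **chain.** The chain of mean values. Uses: `S_poinR`, `S_cv`, `S_kept`, `S_add`, `S_anc`, `S_alv`,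
`S_mr`.

Proof. Take `K`, `L` from `S_poinR` for `R = 2`. For a cell `q = ip a`, `a ∈ I (N - s)`, of size `3^s` let
`c s q` be the constant of `S_poinR` for `k = N - s`, `n = s`, `W b = F (ip b)` (and `c s q = 0` if
`q ∉ Kept (N - s)`); write `m` for the measures of (images of) cells and `E s q` for
`En p (Kept N) F (nb (L + 1) s q)`; by `S_cv` the right side of `S_poinR` is at most
`K₁ m(a) (E s q)^(1/p)`. (1) Let `a' = sb 1 a b` be a child (`b ∈ I 1`). The cells inside `a'` are in the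
sum for `a` and in the sum for `a'`; they have total measure `m(a')` (`S_add`), so
`m(a') |c(a) - c(a')| ≤ K₁ m(a) E(a)^(1/p) + K₁ m(a') E(a')^(1/p)`, and `m(a) ≤ K₂ m(a')` (`S_mr`,
`Met.chi`), `E(a') ≤ E(a)` (`nb (L+1) s (kid q c') ⊆ nb (L+1) (s+1) q`). (2) In the same way for two
cells at distance at most `2`: the cells inside `a'` are in both sums, `m(a) ≤ K₂ m(a')`
(`Met.near` with `R = 2` and `S_mr`), and `nb (L+1) s q' ⊆ nb (L+3) s q`. (3) `s = 0`: the sum for `a`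
contains the term of `a` itself, `m(a) |F (ip a) - c(a)| ≤ K₁ m(a) E^(1/p)`, and
`|F x - F (ip a)| ≤ 2 (fe a)^(1/p)`. `κ = L + 3`. -/
def S_chain : Prop := ∀ (X : Type) [MetricSpace X] [MeasurableSpace X] [BorelSpace X]
  (f : carpet ≃ X) (H : ℝ) (μ : Measure X) (p C C' L' : ℝ), 1 ≤ p → 1 ≤ C → Met f H →
  AR μ p C → 0 < C' → 1 ≤ L' → PI μ p C' L' →
  ∃ (K : ℝ) (κ : ℕ), 0 ≤ K ∧ ∀ (N : ℕ) (F : Pt → ℝ), ∃ c : ℕ → Pt → ℝ, Ch p K κ N F c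

/-- **stop.** Stopping cells. Uses: `S_kept`, `S_anc`.

Proof. Let `b` be a kept face with corner `x` (`x ∈ VK (Kept N)`) and let `a_s` be its ancestor of size
`3^s`, `s ≤ t` (so `a_0 = b`, `a_s ∈ Kept (N - s)`, `a_s` is a child of `a_(s+1)`, `x ∈ cellV s a_s`).
`x` is in the closed cell `a_t` and at distance at most `3^t` of a point of the closed cell `q`, so
`dis a_t q ≤ 2`. With `E s = En p (Kept N) F (nb κ s a_s)`:
`D ≤ |F x - c t q| ≤ |F x - c 0 a_0| + Σ_{s < t} |c s a_s - c (s+1) a_(s+1)| + |c t a_t - c t q|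
≤ C E(0)^(1/p) + Σ_{s < t} C E(s+1)^(1/p) + C E(t)^(1/p) ≤ 2 C Σ_{s ≤ t} E(s)^(1/p)`. Suppose that the
conclusion fails for all `s ≤ t` with `Q = a_s`; then `D > 0` (as `En ≥ 0`) and
`E(s)^(1/p) < A^(-1/p) D 3^(-(t-s)/p)`, so `D < 2 C A^(-1/p) D Σ_{j ≥ 0} 3^(-j/p) ≤ D` if
`A ≥ (2 C / (1 - 3^(-1/p)))^p` (or `C = 0`), contradiction. -/
def S_stop : Prop := ∀ (p C : ℝ) (κ : ℕ), 1 ≤ p → 0 ≤ C → ∃ A : ℝ, 1 ≤ A ∧
  ∀ (N : ℕ) (F : Pt → ℝ) (c : ℕ → Pt → ℝ), Ch p C κ N F c → ∀ t ≤ N, ∀ q ∈ Kept (N - t),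
  ∀ D : ℝ, 0 ≤ D → ∀ x ∈ VK (Kept N), D ≤ |F x - c t q| → (∃ y ∈ cellV t q, dis x y ≤ 3 ^ t) →
  ∃ s ≤ t, ∃ Q ∈ Kept (N - s), x ∈ cellV s Q ∧
    D ^ p * 3 ^ s ≤ A * 3 ^ t * En p (Kept N) F (nb κ s Q)

/-- **vit.** Covering a connected set. Uses: nothing.

Proof. For a lattice point `x` let `δ x` be the sup distance to `cellV t q`, that is the maximum of `0`,
`q₁ 3^t - x₁`, `x₁ - (q₁+1) 3^t`, `q₂ 3^t - x₂`, `x₂ - (q₂+1) 3^t`; it is `1`-Lipschitz for `dis`, it is `0`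
at some point of `K₁` and at least `3^t` at another one, so, going along a path of `K₁` (each step
has `dis = 1`), it takes all values `0, 1, …, 3^t` on `K₁`. Choose points `x_j ∈ K₁` with `δ x_j = j`,
`0 ≤ j ≤ 3^t`, and consider the finite family of the sets `B j = nb κ (s x_j) (Q x_j)`. By the Vitali
covering lemma (`Vitali.exists_disjoint_subfamily_covering_enlargement`, `τ = 3/2`,
`δ = 3^(s x_j)`; or choose greedily by decreasing size) there is a set `u` of indices with `B j`,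
`j ∈ u`, pairwise disjoint such that for every `i` there is `j ∈ u` with `B i ∩ B j` nonempty and
`s x_i ≤ s x_j`. Then `dis x_i x_j ≤ (4 κ + 4) 3^(s x_j)` (both are in the closed neighbourhoods), so
`|i - j| ≤ (4 κ + 4) 3^(s x_j)`; so `3^t + 1 ≤ Σ_{j ∈ u} (2 (4 κ + 4) 3^(s x_j) + 1)
≤ Σ_{j ∈ u} (8 κ + 9) 3^(s x_j)`. Also `B j ⊆ nb (κ + 3) t q`: the point `x_j` is at distance at most
`3^t` of the cell `q` and in the closed cell `Q` of size `3^s ≤ 3^t`. -/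
def S_vit : Prop := ∀ (κ N t : ℕ) (q : Pt) (K₁ : Set Pt) (s : Pt → ℕ) (Q : Pt → Pt),
  Conn (Kept N) K₁ → (∃ x ∈ K₁, x ∈ cellV t q) → (∃ x ∈ K₁, ∀ y ∈ cellV t q, (3 : ℤ) ^ t ≤ dis x y) →
  (∀ x ∈ K₁, (∃ y ∈ cellV t q, dis x y ≤ 3 ^ t) → s x ≤ t ∧ x ∈ cellV (s x) (Q x)) →
  ∃ u : Finset Pt, (∀ x ∈ u, x ∈ K₁ ∧ ∃ y ∈ cellV t q, dis x y ≤ 3 ^ t) ∧
    (∀ x ∈ u, ∀ y ∈ u, x ≠ y → Disjoint (nb κ (s x) (Q x)) (nb κ (s y) (Q y))) ∧
    (∀ x ∈ u, nb κ (s x) (Q x) ⊆ nb (κ + 3) t q) ∧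
    3 ^ t ≤ (8 * κ + 9) * ∑ x ∈ u, 3 ^ s x

/-- **lw.** The Loewner type inequality. Uses: `S_stop`, `S_vit`.

Proof. Let `D = (β - α) / 2`. Either `c t q ≤ β - D` or `c t q ≥ α + D`. In the first case
`D ≤ |F x - c t q|` for all `x ∈ K₁`, in the second case for all `x ∈ K₂`. Take the first. Choose `s x`,
`Q x` by `S_stop` for all `x ∈ K₁` at distance at most `3^t` from `cellV t q` and take `u` from `S_vit`.
Then `D^p 3^t ≤ (8 κ + 9) Σ_{x ∈ u} D^p 3^(s x) ≤ (8 κ + 9) A 3^t Σ_{x ∈ u} En (nb κ (s x) (Q x))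
≤ (8 κ + 9) A 3^t En (nb (κ + 3) t q)` (disjoint subsets, `fe ≥ 0`). Multiply by `2^p`. -/
def S_lw : Prop := ∀ (p C : ℝ) (κ : ℕ), 1 ≤ p → 0 ≤ C → ∃ (A : ℝ) (κ' : ℕ), 1 ≤ A ∧
  ∀ (N : ℕ) (F : Pt → ℝ) (c : ℕ → Pt → ℝ), Ch p C κ N F c → ∀ t ≤ N, ∀ q ∈ Kept (N - t),
  ∀ (K₁ K₂ : Set Pt) (α β : ℝ), α ≤ β → Conn (Kept N) K₁ → Conn (Kept N) K₂ →
    (∃ x ∈ K₁, x ∈ cellV t q) → (∃ x ∈ K₁, ∀ y ∈ cellV t q, (3 : ℤ) ^ t ≤ dis x y) →
    (∃ x ∈ K₂, x ∈ cellV t q) → (∃ x ∈ K₂, ∀ y ∈ cellV t q, (3 : ℤ) ^ t ≤ dis x y) →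
    (∀ x ∈ K₁, β ≤ F x) → (∀ x ∈ K₂, F x ≤ α) →
    (β - α) ^ p ≤ A * En p (Kept N) F (nb κ' t q)

/-- **capG.** The extension of a function on the level `t` network to the level `t + 1` network. Uses:
`S_kept`, `S_alv`.

Let `G x = 0` for `x₁ ≤ 3^t`, `G x = 1` for `x₁ ≥ 2 · 3^t`, and for `3^t < x₁ < 2 · 3^t`,
`G x = F (x₁ - 3^t, x₂ - 2 · 3^t)` if `x₂ ≥ 2 · 3^t` and `G x = F (x₁ - 3^t, x₂)` otherwise. All kept faces
of level `t + 1` are in one of the eight cells of size `3^t`. On the faces of the three cells on the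
left all four corners have `x₁ ≤ 3^t`, so `fe = 0`; in the same way on the right (`G = 1`). On the
middle cells `(1, 0)` and `(1, 2)` the function `G` is the translate of `F` at all corners of the
faces (also for `x₁ = 3^t`, `x₁ = 2 · 3^t`, as `F (0, j) = 0`, `F (3^t, j) = 1`; in the cell `(1, 0)` all
corners have `x₂ ≤ 3^t < 2 · 3^t`), and the kept faces are the translates of `Kept t`. So the
energy of `G` over any finite set of faces is at most twice the energy of `F` over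
`cell t (0, 0)`. -/
def S_capG : Prop := ∀ (p : ℝ) (t : ℕ) (F : Pt → ℝ), 1 ≤ p →
  (∀ j, F (0, j) = 0) → (∀ j, F (3 ^ t, j) = 1) →
  ∃ G : Pt → ℝ, (∀ x : Pt, x.1 ≤ 3 ^ t → G x = 0) ∧ (∀ x : Pt, 2 * 3 ^ t ≤ x.1 → G x = 1) ∧
    ∀ B : Finset Pt, En p (Kept (t + 1)) G B ≤ 2 * En p (Kept t) F (cell t (0, 0))

/-- **cap.** The capacity bound. Uses: `S_poinR`, `S_capG`, `S_cv`, `S_kept`, `S_add`, `S_alv`, `S_anc`,
`S_mr`.

Proof. Let `G` be the function of `S_capG` and apply `S_poinR` with `R = 0`, `k = 0`, `a = (0, 0)`,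
`n = t + 1`, `W b = G (ip b)`: the sum contains the cells in the subcell `(0, 0)` of level `1`, where
`W = 0`, and those in the subcell `(2, 0)` of level `1`, where `W = 1` (`b₁ ≥ 2 · 3^t`). So with
`m₀`, `m₂` the measures of (the images of) these two cells of level `1` (`S_add` with `k = 1`):
`min m₀ m₂ ≤ m₀ |c| + m₂ |1 - c| ≤ K μ(X) (18 · 4^p · 2 En p (Kept t) F (cell t (0, 0)))^(1/p)` (`S_cv`).
`m₀, m₂ > 0` (`S_mr`, `Met.pos`) and `μ(X)` do not depend on `t`, `F`. -/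
def S_cap : Prop := ∀ (X : Type) [MetricSpace X] [MeasurableSpace X] [BorelSpace X]
  (f : carpet ≃ X) (H : ℝ) (μ : Measure X) (p C C' L' : ℝ), 1 ≤ p → 1 ≤ C → Met f H →
  AR μ p C → 0 < C' → 1 ≤ L' → PI μ p C' L' →
  ∃ A : ℝ, 1 ≤ A ∧ ∀ (t : ℕ) (F : Pt → ℝ), (∀ j, F (0, j) = 0) → (∀ j, F (3 ^ t, j) = 1) →
    A⁻¹ ≤ En p (Kept t) F (cell t (0, 0))

/-- **dst.** The distances of the lattice points. Uses: `S_kept`.

(1) corners of alive cells are in the carpet (`pt_mem`). (2) a corner of the face `f` times `3` is a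
corner of the child `kid f (0 or 2, 0 or 2)`. (3) the maximum metric on the plane. (4) `PP` of the
scaled point. (5) the corners of the cell `q = ip a` are in `Cl n a`. -/
def S_dst : Prop :=
  (∀ (N : ℕ), ∀ x ∈ VK (Kept N), (PP N x).1 = ((x.1 : ℝ) / 3 ^ N, (x.2 : ℝ) / 3 ^ N)) ∧
  (∀ (N : ℕ), ∀ x ∈ VK (Kept N), mulP 3 x ∈ VK (Kept (N + 1))) ∧
  (∀ (N : ℕ), ∀ x ∈ VK (Kept N), ∀ y ∈ VK (Kept N), dist (PP N x) (PP N y) = (dis x y : ℝ) / 3 ^ N) ∧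
  (∀ (N : ℕ), ∀ x ∈ VK (Kept N), PP (N + 1) (mulP 3 x) = PP N x) ∧
  (∀ (n : ℕ), ∀ a ∈ I n, ∀ x, IsCor x (ip a) → x ∈ VK (Kept n) ∧ PP n x ∈ Cl n a)

/-- **cor.** Adjacent corners of a cell have distance comparable to the diameter of its image. Uses:
`S_dst`, `S_kept`, `S_geo`, `S_met1`.

Proof. With `x = PP n (ip a)` and `y = PP n ((ip a).1 + 1, (ip a).2)`: both are in `Cl n a`, so
`dist (f x) (f y) ≤ rad f n a`; `dist x y = 1 / 3^n` and `dist x z ≤ 1 / 3^n` for `z ∈ Cl n a`, so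
`dist (f x) (f z) ≤ η 1 dist (f x) (f y)` and `rad f n a ≤ 2 η 1 dist (f x) (f y)`. -/
def S_cor : Prop := ∀ (X : Type) [MetricSpace X] (f : carpet ≃ X) (η : ℝ → ℝ), QS f η →
  ∀ n, ∀ a ∈ I n, dist (f (PP n (ip a))) (f (PP n ((ip a).1 + 1, (ip a).2))) ≤ rad f n a ∧
    rad f n a ≤ 2 * η 1 * dist (f (PP n (ip a))) (f (PP n ((ip a).1 + 1, (ip a).2)))

/-- **final.** Part A. Uses: everything above (assembly by helper10). -/
def S_final : Prop := ∀ (X : Type) [MetricSpace X] [MeasurableSpace X] [BorelSpace X]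
  (f : carpet ≃ X) (p : ℝ) (η : ℝ → ℝ), QS f η →
  ∀ C : ℝ, 1 ≤ C → AR (Measure.hausdorffMeasure p : Measure X) p C →
  ∀ C' L' : ℝ, 0 < C' → 1 ≤ L' → PI (Measure.hausdorffMeasure p : Measure X) p C' L' →
  1 < p ∧ Nonempty (Dat p)

end Pool.Agent.Lib.MP_1d263a_an.PA
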