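import Pool.Agent.Lib.MP_1d263a_an.PA.Asm
import Pool.Agent.Lib.MP_1d263a_an.PA.P.alv
import Pool.Agent.Lib.MP_1d263a_an.PA.P.anc
import Pool.Agent.Lib.MP_1d263a_an.PA.P.cnt
import Pool.Agent.Lib.MP_1d263a_an.PA.P.mem
import Pool.Agent.Lib.MP_1d263a_an.PA.P.geo
import Pool.Agent.Lib.MP_1d263a_an.PA.P.top
import Pool.Agent.Lib.MP_1d263a_an.PA.P.met1
import Pool.Agent.Lib.MP_1d263a_an.PA.P.met2
import Pool.Agent.Lib.MP_1d263a_an.PA.P.met3
import Pool.Agent.Lib.MP_1d263a_an.PA.P.mr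
import Pool.Agent.Lib.MP_1d263a_an.PA.P.null
import Pool.Agent.Lib.MP_1d263a_an.PA.P.add
import Pool.Agent.Lib.MP_1d263a_an.PA.P.cov
import Pool.Agent.Lib.MP_1d263a_an.PA.P.psi
import Pool.Agent.Lib.MP_1d263a_an.PA.P.lip
import Pool.Agent.Lib.MP_1d263a_an.PA.P.gp
import Pool.Agent.Lib.MP_1d263a_an.PA.P.reg
import Pool.Agent.Lib.MP_1d263a_an.PA.P.int
import Pool.Agent.Lib.MP_1d263a_an.PA.P.lhs
import Pool.Agent.Lib.MP_1d263a_an.PA.P.poinR
import Pool.Agent.Lib.MP_1d263a_an.PA.P.kept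
import Pool.Agent.Lib.MP_1d263a_an.PA.P.cv
import Pool.Agent.Lib.MP_1d263a_an.PA.P.chain
import Pool.Agent.Lib.MP_1d263a_an.PA.P.stop
import Pool.Agent.Lib.MP_1d263a_an.PA.P.vit
import Pool.Agent.Lib.MP_1d263a_an.PA.P.lw
import Pool.Agent.Lib.MP_1d263a_an.PA.P.capG
import Pool.Agent.Lib.MP_1d263a_an.PA.P.cap
import Pool.Agent.Lib.MP_1d263a_an.PA.P.dst
import Pool.Agent.Lib.MP_1d263a_an.PA.P.cor

/-!
# Carpet project, part A: the main theorem
-/

set_option autoImplicit false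

namespace Pool.Agent.Lib.MP_1d263a_an.PA

open MeasureTheory CarpetPI
open scoped ENNReal

theorem t_anc : S_anc := p_anc p_alv
theorem t_mem : S_mem := p_mem p_alv
theorem t_met2 : S_met2 := p_met2 p_geo p_met1 p_alv
theorem t_met3 : S_met3 := p_met3 p_geo p_met1
theorem t_mr : S_mr := p_mr p_geo p_top
theorem t_null : S_null := p_null p_geo p_top t_mr t_mem p_alv t_anc
theorem t_add : S_add := p_add p_geo p_top t_null t_mem p_alv
theorem t_psi : S_psi := p_psi p_geo p_top t_mem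
theorem t_lip : S_lip := p_lip t_psi p_cnt
theorem t_gp : S_gp := p_gp t_psi p_cnt t_mr
theorem t_reg : S_reg := p_reg p_geo t_mem t_anc
theorem t_int : S_int := p_int t_gp t_reg p_cnt t_anc
theorem t_lhs : S_lhs := p_lhs t_mr t_add t_null t_lip p_cnt p_geo t_anc p_top p_alv
theorem t_poinR : S_poinR := p_poinR p_cov t_psi t_lip t_gp t_int t_lhs t_mr p_geo p_top
theorem t_cv : S_cv := p_cv p_kept p_cnt t_anc
theorem t_chain : S_chain := p_chain t_poinR t_cv p_kept t_add t_anc p_alv t_mr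
theorem t_stop : S_stop := p_stop p_kept t_anc
theorem t_lw : S_lw := p_lw t_stop p_vit
theorem t_capG : S_capG := p_capG p_kept p_alv
theorem t_cap : S_cap := p_cap t_poinR t_capG t_cv p_kept t_add p_alv t_anc t_mr
theorem t_dst : S_dst := p_dst p_kept
theorem t_cor : S_cor := p_cor t_dst p_kept p_geo p_met1

/-- **Part A.** A quasisymmetric image of the Sierpinski carpet which is Ahlfors `p`-regular and
supports a weak `(1, p)`-Poincare inequality gives the data `Dat p` on the lattices, with `1 < p`. -/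
theorem partA : S_final :=
  p_final p_geo p_met1 t_met2 t_met3 t_mr t_add p_kept t_chain t_lw t_cap t_dst t_cor

end Pool.Agent.Lib.MP_1d263a_an.PA
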